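import Mathlib

/-!
# Square values of `φ(k) φ(n - k) + 1`: the numbers `c p² + d`

For a prime `p` not dividing `c` and `φ(c) φ(d) = 4` one has
`φ(c p²) φ(d) + 1 = 4 p (p - 1) + 1 = (2 p - 1)²`, so `n = c p² + d` has the property (with
`k = c p²`). With `c = 1`, `d = 5` and Chebyshev's lower bound this gives at least `√N / log N`
integers `n ≤ N`.
-/

set_option autoImplicit false

namespace Pool.Agent.Results.MP_cd0f23_nt.PrimeSquares

open Nat Finset

/-- There is an integer `k` with `0 < k < n` such that `φ(k) φ(n - k) + 1` is a perfect square. -/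
def Good (n : ℕ) : Prop :=
  ∃ k : ℕ, 0 < k ∧ k < n ∧ IsSquare (Nat.totient k * Nat.totient (n - k) + 1)

lemma key {p c d : ℕ} (hp : p.Prime) (hc : ¬ p ∣ c)
    (h : Nat.totient c * Nat.totient d = 4) :
    Nat.totient (c * p ^ 2) * Nat.totient (c * p ^ 2 + d - c * p ^ 2) + 1 = (2 * p - 1) ^ 2 := by
  have h1 : Nat.Coprime c (p ^ 2) :=
    (Nat.Coprime.pow_left 2 ((Nat.Prime.coprime_iff_not_dvd hp).2 hc)).symm
  rw [Nat.add_sub_cancel_left, Nat.totient_mul h1, Nat.totient_prime_pow hp (by norm_num)]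
  obtain ⟨q, rfl⟩ : ∃ q, p = q + 1 := ⟨p - 1, by have := hp.two_le; omega⟩
  have e1 : q + 1 - 1 = q := by omega
  have e2 : 2 * (q + 1) - 1 = 2 * q + 1 := by omega
  have e3 : 2 - 1 = 1 := rfl
  rw [e1, e2, e3, pow_one]
  calc Nat.totient c * ((q + 1) * q) * Nat.totient d + 1
      = (Nat.totient c * Nat.totient d) * ((q + 1) * q) + 1 := by ring
    _ = (2 * q + 1) ^ 2 := by rw [h]; ring

lemma good_of {p c d : ℕ} (hp : p.Prime) (hc : ¬ p ∣ c)
    (h : Nat.totient c * Nat.totient d = 4) : Good (c * p ^ 2 + d) := by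
  have hc0 : 0 < c := by
    rcases Nat.eq_zero_or_pos c with h0 | h0
    · rw [h0] at h
      simp at h
    · exact h0
  have hd0 : 0 < d := by
    rcases Nat.eq_zero_or_pos d with h0 | h0
    · rw [h0] at h
      simp at h
    · exact h0
  have hp0 : 0 < c * p ^ 2 := Nat.mul_pos hc0 (pow_pos hp.pos 2)
  refine ⟨c * p ^ 2, hp0, by omega, ?_⟩
  rw [key hp hc h]
  exact ⟨2 * p - 1, by ring⟩

lemma tot5 : Nat.totient 1 * Nat.totient 5 = 4 := by decide

lemma good5 {p : ℕ} (hp : p.Prime) : Good (p ^ 2 + 5) := by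
  have h := good_of (c := 1) (d := 5) hp hp.not_dvd_one tot5
  rwa [one_mul] at h

open Classical in
lemma card_ge (N : ℕ) (y : ℝ) (hy : 0 ≤ y) (hN : y ^ 2 + 5 ≤ (N : ℝ)) :
    Nat.primeCounting ⌊y⌋₊ ≤ ((Finset.Icc 1 N).filter Good).card := by
  rw [Nat.primeCounting, Nat.primeCounting', Nat.count_eq_card_filter_range]
  refine Finset.card_le_card_of_injOn (fun p => p ^ 2 + 5) ?_ ?_
  · intro p hp
    rw [Finset.mem_coe, Finset.mem_filter, Finset.mem_range] at hp
    have h1 : p ≤ ⌊y⌋₊ := by omega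
    have h2 : (p : ℝ) ≤ y := (Nat.le_floor_iff hy).1 h1
    have h3 : ((p ^ 2 + 5 : ℕ) : ℝ) ≤ (N : ℝ) := by
      push_cast
      nlinarith [Nat.cast_nonneg (α := ℝ) p]
    have h4 : p ^ 2 + 5 ≤ N := by exact_mod_cast h3
    rw [Finset.mem_coe, Finset.mem_filter, Finset.mem_Icc]
    exact ⟨⟨Nat.le_add_left 1 (p ^ 2 + 4), h4⟩, good5 hp.2⟩
  · intro a _ b _ hab
    have h1 : a ^ 2 = b ^ 2 := by
      have : a ^ 2 + 5 = b ^ 2 + 5 := hab
      omega
    exact Nat.pow_left_injective (n := 2) (by norm_num) h1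

lemma analytic (s : ℝ) (hs : 40 ≤ s) :
    s / (2 * Real.log s) ≤ ((s - 1 - 1) * Real.log 2 - Real.log (s - 1 + 2)) / Real.log (s - 1) := by
  have hl1 : 0 < Real.log (s - 1) := Real.log_pos (by linarith)
  have hl2 : Real.log (s - 1) ≤ Real.log s := Real.log_le_log (by linarith) (by linarith)
  have hl3 : 0 < Real.log s := lt_of_lt_of_le hl1 hl2
  have h2 : (0.6931471803 : ℝ) < Real.log 2 := Real.log_two_gt_d9
  have h2' : Real.log 2 < (0.6931471808 : ℝ) := Real.log_two_lt_d9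
  have hlog : Real.log (s - 1 + 2) ≤ (s + 1) / 16 + 4 * Real.log 2 - 1 := by
    have e : s - 1 + 2 = ((s + 1) / 16) * 2 ^ 4 := by ring
    rw [e, Real.log_mul (by positivity) (by norm_num), Real.log_pow]
    have h5 := Real.log_le_sub_one_of_pos (show 0 < (s + 1) / 16 by positivity)
    push_cast
    linarith
  have hnum : s / 2 ≤ (s - 1 - 1) * Real.log 2 - Real.log (s - 1 + 2) := by
    nlinarith
  calc s / (2 * Real.log s) = (s / 2) / Real.log s := by
        rw [div_div]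
    _ ≤ (s / 2) / Real.log (s - 1) := by
        apply div_le_div_of_nonneg_left (by linarith) hl1 hl2
    _ ≤ _ := by
        apply div_le_div_of_nonneg_right hnum hl1.le

open Classical in
/-- (1) Let `p` be a prime, `p ∤ c` and `φ(c) φ(d) = 4`. Then
`φ(c p²) φ((c p² + d) - c p²) + 1 = (2 p - 1)²`. (2) For every `N ≥ 1600` at least `√N / log N` of
the integers `1 ≤ n ≤ N` have a `k` with `0 < k < n` such that `φ(k) φ(n - k) + 1` is a perfect
square. -/
theorem result :
    (∀ p c d : ℕ, p.Prime → ¬ p ∣ c → Nat.totient c * Nat.totient d = 4 →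
      Nat.totient (c * p ^ 2) * Nat.totient (c * p ^ 2 + d - c * p ^ 2) + 1 = (2 * p - 1) ^ 2 ∧
        Good (c * p ^ 2 + d)) ∧
    ∀ N : ℕ, 1600 ≤ N →
      Real.sqrt N / Real.log N ≤ (((Finset.Icc 1 N).filter Good).card : ℝ) := by
  refine ⟨fun p c d hp hc h => ⟨key hp hc h, good_of hp hc h⟩, ?_⟩
  intro N hN
  have hN' : (1600 : ℝ) ≤ (N : ℝ) := by exact_mod_cast hN
  have hs0 : 0 ≤ Real.sqrt N := Real.sqrt_nonneg _
  have hs1 : Real.sqrt N * Real.sqrt N = N := Real.mul_self_sqrt (by linarith)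
  have hs : 40 ≤ Real.sqrt N := by
    rw [show (40 : ℝ) = Real.sqrt 1600 by
      rw [show (1600 : ℝ) = 40 ^ 2 by norm_num, Real.sqrt_sq (by norm_num)]]
    exact Real.sqrt_le_sqrt hN'
  have h1 := card_ge N (Real.sqrt N - 1) (by linarith) (by nlinarith)
  have h2 := Chebyshev.pi_ge' (x := Real.sqrt N - 1) (by linarith)
  have h3 := analytic (Real.sqrt N) hs
  have h4 : 2 * Real.log (Real.sqrt N) = Real.log N := by
    rw [Real.log_sqrt (by linarith)]
    ring
  rw [h4] at h3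
  calc Real.sqrt N / Real.log N ≤ _ := h3
    _ ≤ _ := h2
    _ ≤ _ := by exact_mod_cast h1

end Pool.Agent.Results.MP_cd0f23_nt.PrimeSquares
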